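import Pool.Agent.Lib.TGBC_h90.Ram
import Pool.Agent.Lib.TGBC_h50.DivGe

/-!
# TANK G, (BC5e): tameness at height one primes, for `A = k[u]`
-/

set_option autoImplicit false

namespace Pool.Agent.TGBC90

open Polynomial
open Pool.Agent.TG (ncl up)
open Pool.Agent.TG82
open Pool.Agent.TGh4 (Disc IsUnif ordV)
open Pool.Agent.TGBC50 (TameD tameD_of aeval_mem_of Vp)

universe u

section Defs

variable {k K : Type u} [Field k] [Field K] [Algebra k K] {n : ℕ}

/-- `k(u)`. -/
abbrev Fu (k : Type u) {K : Type u} [Field k] [Field K] [Algebra k K] {n : ℕ} (u : Fin n → K) :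
    IntermediateField k K := IntermediateField.adjoin k (Set.range u)

/-- `k[u]`, as a subalgebra of `k(u)`. -/
def Au (k : Type u) {K : Type u} [Field k] [Field K] [Algebra k K] {n : ℕ} (u : Fin n → K) :
    Subalgebra k (Fu k u) := (Algebra.adjoin k (Set.range u)).comap (Fu k u).val

theorem mem_Au {u : Fin n → K} {a : Fu k u} :
    a ∈ Au k u ↔ (a : K) ∈ Algebra.adjoin k (Set.range u) := Iff.rfl

theorem aeval_mem_Fu (u : Fin n → K) (Q : MvPolynomial (Fin n) k) :
    MvPolynomial.aeval u Q ∈ Fu k u := by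
  have h1 : MvPolynomial.aeval u Q ∈ Algebra.adjoin k (Set.range u) := by
    rw [Algebra.adjoin_range_eq_range_aeval]
    exact ⟨Q, rfl⟩
  exact IntermediateField.algebra_adjoin_le_adjoin k _ h1

/-- The element `Q(u)` of `k[u]`. -/
noncomputable def ev (u : Fin n → K) : MvPolynomial (Fin n) k →ₐ[k] Au k u :=
  ((MvPolynomial.aeval u).codRestrict (Fu k u).toSubalgebra (aeval_mem_Fu u)).codRestrict (Au k u)
    (fun Q => by
      rw [mem_Au, Algebra.adjoin_range_eq_range_aeval]
      exact ⟨Q, rfl⟩)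

theorem ev_coe (u : Fin n → K) (Q : MvPolynomial (Fin n) k) :
    (((ev u Q : Au k u) : Fu k u) : K) = MvPolynomial.aeval u Q := rfl

theorem ev_surjective (u : Fin n → K) : Function.Surjective (ev (k := k) u) := by
  intro a
  have h1 := a.2
  rw [mem_Au, Algebra.adjoin_range_eq_range_aeval] at h1
  obtain ⟨Q, hQ⟩ := h1
  exact ⟨Q, Subtype.ext (Subtype.ext hQ)⟩

theorem ev_injective {u : Fin n → K} (hu : AlgebraicIndependent k u) :
    Function.Injective (ev (k := k) u) := by
  intro Q Q' h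
  exact hu (congrArg (fun a : Au k u => ((a : Fu k u) : K)) h)

/-- `k[u]` is a polynomial ring. -/
noncomputable def evEquiv {u : Fin n → K} (hu : AlgebraicIndependent k u) :
    MvPolynomial (Fin n) k ≃ₐ[k] Au k u :=
  AlgEquiv.ofBijective (ev u) ⟨ev_injective hu, ev_surjective u⟩

theorem up_Au (u : Fin n → K) : up K (Au k u) = Algebra.adjoin k (Set.range u) := by
  ext a
  constructor
  · rintro ⟨b, hb, rfl⟩
    exact mem_Au.1 hb
  · intro ha
    exact ⟨⟨a, IntermediateField.algebra_adjoin_le_adjoin k _ ha⟩, ha, rfl⟩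

theorem exists_frac (u : Fin n → K) (a : Fu k u) :
    ∃ r s : MvPolynomial (Fin n) k, MvPolynomial.aeval u s ≠ 0 ∧
      (a : K) = MvPolynomial.aeval u r / MvPolynomial.aeval u s := by
  obtain ⟨r, s, h⟩ := (IntermediateField.mem_adjoin_range_iff k u (a : K)).1 a.2
  by_cases hs : MvPolynomial.aeval u s = 0
  · refine ⟨0, 1, by simp, ?_⟩
    rw [h, hs, div_zero, map_zero, zero_div]
  · exact ⟨r, s, hs, h⟩

/-- `k[u]` is integrally closed in `k(u)`. -/
theorem Au_ic {u : Fin n → K} (hu : AlgebraicIndependent k u) (b : Fu k u)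
    (hb : IsIntegral (Au k u) b) : b ∈ Au k u := by
  have hic : IsIntegrallyClosed (Au k u) :=
    IsIntegrallyClosed.of_equiv (evEquiv hu).toRingEquiv
  have hfr : IsFractionRing (Au k u) (Fu k u) := by
    have hf : FaithfulSMul (Au k u) (Fu k u) := by
      rw [faithfulSMul_iff_algebraMap_injective]
      exact Subtype.val_injective
    refine IsFractionRing.of_field _ _ fun z => ?_
    obtain ⟨r, s, -, h⟩ := exists_frac u z
    refine ⟨ev u r, ev u s, Subtype.ext ?_⟩
    exact h
  obtain ⟨y, hy⟩ := IsIntegrallyClosed.isIntegral_iff.1 hb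
  rw [← hy]
  exact y.2

end Defs

section Frac

variable {k K : Type u} [Field k] [Field K] [Algebra k K] {n : ℕ}

/-- If the centre of `V` on `k[u]` is contained in `(P)`, then `V ∩ k(u)` is the localisation. -/
theorem frac_of_P {u : Fin n → K} {V : ValuationSubring K}
    (hk : ∀ c : k, algebraMap k K c ∈ V) (huV : ∀ l, u l ∈ V)
    {P : MvPolynomial (Fin n) k} (hP : Irreducible P)
    (hPQ : ∀ Q : MvPolynomial (Fin n) k, V.valuation (MvPolynomial.aeval u Q) < 1 → P ∣ Q)
    (a : Fu k u) (ha : algebraMap (Fu k u) K a ∈ V) :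
    ∃ b ∈ Au k u, ∃ s ∈ Au k u, V.valuation (algebraMap (Fu k u) K s) = 1 ∧ a = b / s := by
  classical
  obtain ⟨r, s, hs, h⟩ := exists_frac u a
  have hs0 : s ≠ 0 := by rintro rfl; simp at hs
  obtain ⟨s', r', c, hrel, hcs, hcr⟩ :=
    UniqueFactorizationMonoid.exists_reduced_factors s hs0 r
  have hc0 : MvPolynomial.aeval u c ≠ 0 := by
    intro h1
    apply hs
    rw [← hcs, map_mul, h1, zero_mul]
  have hs'0 : MvPolynomial.aeval u s' ≠ 0 := by
    intro h1
    apply hs
    rw [← hcs, map_mul, h1, mul_zero]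
  have h' : (a : K) = MvPolynomial.aeval u r' / MvPolynomial.aeval u s' := by
    rw [h, ← hcs, ← hcr, map_mul, map_mul, mul_div_mul_left _ _ hc0]
  have hv : V.valuation (MvPolynomial.aeval u s') = 1 := by
    refine le_antisymm ((V.valuation_le_one_iff _).2 (aeval_mem_of hk huV _)) ?_
    by_contra hlt
    push Not at hlt
    have h1 := hPQ _ hlt
    have h2 : V.valuation (MvPolynomial.aeval u r') < 1 := by
      have h3 : MvPolynomial.aeval u r' = (a : K) * MvPolynomial.aeval u s' := by
        rw [h', div_mul_cancel₀ _ hs'0]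
      rw [h3, map_mul]
      exact lt_of_le_of_lt (mul_le_of_le_one_left' ((V.valuation_le_one_iff _).2 ha)) hlt
    exact hP.not_isUnit (hrel h1 (hPQ _ h2))
  exact ⟨ev u r', (ev u r').2, ev u s', (ev u s').2, hv, Subtype.ext h'⟩

end Frac

section Tame

variable {k K : Type u} [Field k] [IsAlgClosed k] [Field K] [Algebra k K] {n : ℕ}

/-- **Tameness at height one primes** (BC5e). -/
theorem exists_tameD {u : Fin n → K} (hu : AlgebraicIndependent k u)
    [FiniteDimensional (Fu k u) K] [Algebra.IsSeparable (Fu k u) K]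
    {x : ncl (up K (Au k u)) →ₐ[k] k} {V : ValuationSubring K} (h : Thru (Au k u) x V)
    (hp : ∀ j : ℕ, 0 < j → j ≤ rho (Au k u) x → (j : k) ≠ 0)
    {P : MvPolynomial (Fin n) k} (hP : Irreducible P)
    (hPQ : ∀ Q : MvPolynomial (Fin n) k, V.valuation (MvPolynomial.aeval u Q) < 1 ↔ P ∣ Q)
    {t : K} (ht : IsUnif V t) :
    (∀ a ∈ V, ∃ G : Polynomial (MvPolynomial (Fin n) k),
      Vp V (G.eval₂ (MvPolynomial.aeval u : MvPolynomial (Fin n) k →ₐ[k] K).toRingHom a) ∧
      V.valuation ((Polynomial.derivative G).eval₂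
        (MvPolynomial.aeval u : MvPolynomial (Fin n) k →ₐ[k] K).toRingHom a) = 1) ∧
    ∃ (e : ℕ) (ε : K), 0 < e ∧ e ≤ rho (Au k u) x ∧ (e : k) ≠ 0 ∧ V.valuation ε = 1 ∧
      MvPolynomial.aeval u P = ε * t ^ e := by
  classical
  have hA : ∀ b : Fu k u, IsIntegral (Au k u) b → b ∈ Au k u := Au_ic hu
  have hev : ∀ Q : MvPolynomial (Fin n) k, MvPolynomial.aeval u Q ∈ V := fun Q =>
    h.mem _ (mem_ncl_up (Au k u) (ev u Q).2)
  have hk : ∀ c : k, algebraMap k K c ∈ V := fun c => by
    have h1 := hev (MvPolynomial.C c)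
    rwa [MvPolynomial.algHom_C] at h1
  have huV : ∀ l, u l ∈ V := fun l => by
    have h1 := hev (MvPolynomial.X l)
    rwa [MvPolynomial.aeval_X] at h1
  have hfrac := frac_of_P hk huV hP (fun Q hQ => (hPQ Q).1 hQ)
  constructor
  · intro a ha
    obtain ⟨G, hG0, hG1⟩ := hsep_of_rho hA h hp hfrac a ha
    let θ : Au k u →+* MvPolynomial (Fin n) k := (evEquiv hu).symm.toRingEquiv.toRingHom
    have hθ : ∀ b : Au k u, MvPolynomial.aeval u (θ b) = ((b : Fu k u) : K) := by
      intro b
      have h1 : ev u (θ b) = b := (evEquiv hu).apply_symm_apply b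
      have h2 := ev_coe u (θ b)
      rw [h1] at h2
      exact h2.symm
    have hcomp : (MvPolynomial.aeval u : MvPolynomial (Fin n) k →ₐ[k] K).toRingHom.comp θ =
        algebraMap (Au k u) K := RingHom.ext hθ
    refine ⟨G.map θ, ?_, ?_⟩
    · unfold Vp
      rw [eval₂_map, hcomp]
      exact hG0
    · rw [derivative_map, eval₂_map, hcomp]
      exact hG1
  · have hP0 : MvPolynomial.aeval u P ≠ 0 := by
      intro h1
      exact hP.ne_zero (hu (by rw [h1, map_zero]))
    have hvP : V.valuation (MvPolynomial.aeval u P) < 1 := (hPQ P).2 dvd_rfl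
    obtain ⟨m, hm⟩ := ht.gen _ hP0
    have hm0 : 0 < m := by
      rw [hm] at hvP
      exact ht.zpow_lt_one.1 hvP
    obtain ⟨e, rfl⟩ := Int.eq_ofNat_of_zero_le hm0.le
    have he0 : 0 < e := by exact_mod_cast hm0
    rw [zpow_natCast] at hm
    have htd : ∀ a, V.valuation a < 1 → a / t ∈ V := fun a ha => TGBC50.div_unif_mem ht ha
    have hle : e ≤ rho (Au k u) x := by
      refine le_rho hA h hp ht.ne ht.lt htd (P := ((ev u P : Au k u) : Fu k u)) ?_ ?_ hm.le
      · intro h1
        apply hP0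
        rw [← ev_coe, h1]
        rfl
      · intro a ha
        obtain ⟨b, hb, s, hs, hvs, rfl⟩ := hfrac a ((V.valuation_le_one_iff _).1 ha.le)
        obtain ⟨B, hB⟩ := ev_surjective u ⟨b, hb⟩
        have hBb : MvPolynomial.aeval u B = (b : K) := by
          rw [← ev_coe, hB]
        have hs0 : algebraMap (Fu k u) K s ≠ 0 := by
          intro h1
          rw [h1, map_zero] at hvs
          exact zero_ne_one hvs
        have hvb : V.valuation (MvPolynomial.aeval u B) < 1 := by
          rw [hBb]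
          rw [map_div₀, map_div₀, hvs, div_one] at ha
          exact ha
        obtain ⟨Q, hQ⟩ := (hPQ B).1 hvb
        have h1 : algebraMap (Fu k u) K (b / s / ((ev u P : Au k u) : Fu k u)) =
            MvPolynomial.aeval u Q * (algebraMap (Fu k u) K s)⁻¹ := by
          rw [map_div₀, map_div₀]
          have h2 : algebraMap (Fu k u) K b = MvPolynomial.aeval u P * MvPolynomial.aeval u Q := by
            rw [← map_mul, ← hQ]
            exact hBb.symm
          have h3 : algebraMap (Fu k u) K ((ev u P : Au k u) : Fu k u) =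
            MvPolynomial.aeval u P := rfl
          rw [h2, h3]
          field_simp
        rw [h1]
        refine V.mul_mem _ _ (hev Q) ?_
        rw [← V.valuation_le_one_iff, map_inv₀, hvs, inv_one]
    refine ⟨e, MvPolynomial.aeval u P / t ^ e, he0, hle, hp e he0 hle, ?_, ?_⟩
    · rw [map_div₀, map_pow, hm, div_self (pow_ne_zero _ ht.pos.ne')]
    · rw [div_mul_cancel₀ _ (pow_ne_zero _ ht.ne)]

/-- The tame data, in characteristic `p > rho`. -/
theorem exists_tameD' {p : ℕ} [hpf : Fact p.Prime] [CharP k p] {u : Fin n → K}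
    (hu : AlgebraicIndependent k u)
    [FiniteDimensional (Fu k u) K] [Algebra.IsSeparable (Fu k u) K]
    {x : ncl (up K (Au k u)) →ₐ[k] k} {V : ValuationSubring K} (h : Thru (Au k u) x V)
    (hp : rho (Au k u) x < p) {P : MvPolynomial (Fin n) k} (hP : Irreducible P)
    (hPQ : ∀ Q : MvPolynomial (Fin n) k, V.valuation (MvPolynomial.aeval u Q) < 1 ↔ P ∣ Q)
    {t : K} (ht : IsUnif V t) : ∃ e : ℕ, e ≤ rho (Au k u) x ∧ TameD k V u t e := by
  have hp' : ∀ j : ℕ, 0 < j → j ≤ rho (Au k u) x → (j : k) ≠ 0 := by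
    intro j hj hjr h1
    rw [CharP.cast_eq_zero_iff k p] at h1
    exact absurd (Nat.le_of_dvd hj h1) (by omega)
  obtain ⟨hsep, e, ε, he0, her, hek, hε, hPe⟩ := exists_tameD hu h hp' hP hPQ ht
  have hev : ∀ Q : MvPolynomial (Fin n) k, MvPolynomial.aeval u Q ∈ V := fun Q =>
    h.mem _ (mem_ncl_up (Au k u) (ev u Q).2)
  have hk : ∀ c : k, algebraMap k K c ∈ V := fun c => by
    have h1 := hev (MvPolynomial.C c)
    rwa [MvPolynomial.algHom_C] at h1
  have huV : ∀ l, u l ∈ V := fun l => by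
    have h1 := hev (MvPolynomial.X l)
    rwa [MvPolynomial.aeval_X] at h1
  have hperf : ∀ c : k, ∃ d, d ^ p = c := fun c => IsAlgClosed.exists_pow_nat_eq c hpf.out.pos
  exact ⟨e, her, tameD_of hperf hk huV hP (fun Q hQ => (hPQ Q).1 hQ) ht he0 hek hε hPe hsep⟩

end Tame

end Pool.Agent.TGBC90
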