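import Pool.Agent.Lib.TGBC_h90.Star

/-!
# TANK G, (BC5e): the multiplicity of the residue is at most `rho`
-/

set_option autoImplicit false

namespace Pool.Agent.TGBC90

open Polynomial
open Pool.Agent.TG (ncl up)
open Pool.Agent.TG82

universe u

section Mult

variable {k F L : Type u} [Field k] [Field F] [Field L] [Algebra k F] [Algebra k L]
  [Algebra F L] [IsScalarTower k F L]

/-- The map `A → V`. -/
def toV {A : Subalgebra k F} {V : ValuationSubring L} (hV : ∀ c ∈ ncl (up L A), c ∈ V) : A →+* V :=
  ((algebraMap F L).comp A.val.toRingHom).codRestrict V.toSubring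
    (fun a => hV _ (mem_ncl_up A a.2))

theorem toV_coe {A : Subalgebra k F} {V : ValuationSubring L} (hV : ∀ c ∈ ncl (up L A), c ∈ V)
    (a : A) : ((toV hV a : V) : L) = algebraMap F L a := rfl

/-- The minimal polynomial of an element of `C` has its coefficients in `A`. -/
theorem exists_minpoly_lift {A : Subalgebra k F} (hA : ∀ b : F, IsIntegral A b → b ∈ A)
    (c : ncl (up L A)) : ∃ f : Polynomial A, f.Monic ∧
      f.map (algebraMap A F) = minpoly F (c : L) := by
  have hc : IsIntegral A (c : L) := isIntegral_of_ncl c.2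
  have hcF : IsIntegral F (c : L) := hc.tower_top
  obtain ⟨p, hp, hpc⟩ := hc
  have hd : minpoly F (c : L) ∣ p.map (algebraMap A F) := by
    refine minpoly.dvd F _ ?_
    rw [aeval_map_algebraMap]
    exact hpc
  have h1 := integralClosure.mem_lifts_of_monic_of_dvd_map F hp (minpoly.monic hcF) hd
  have h2 : minpoly F (c : L) ∈ lifts (algebraMap A F) := by
    rw [lifts_iff_coeff_lifts] at h1 ⊢
    intro n
    obtain ⟨y, hy⟩ := h1 n
    have h3 : (minpoly F (c : L)).coeff n ∈ A := by
      rw [← hy]
      exact hA _ y.2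
    exact ⟨⟨_, h3⟩, rfl⟩
  obtain ⟨f, hf, -, hfm⟩ := lifts_and_natDegree_eq_and_monic h2 (minpoly.monic hcF)
  exact ⟨f, hfm, hf⟩

variable [FiniteDimensional F L] [Algebra.IsSeparable F L]

/-- **The basic bound.** -/
theorem mult_le_rho [IsAlgClosed k] {A : Subalgebra k F}
    (hA : ∀ b : F, IsIntegral A b → b ∈ A) {x : ncl (up L A) →ₐ[k] k} {V : ValuationSubring L}
    (h : Thru A x V) {c : ncl (up L A)} (hc : Good A x c) {f : Polynomial A}
    (hf : f.map (algebraMap A F) = minpoly F (c : L)) :
    rootMultiplicity (IsLocalRing.residue V ⟨c, h.mem c c.2⟩)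
      (f.map ((IsLocalRing.residue V).comp (toV h.mem))) ≤ rho A x := by
  classical
  let Ω := AlgebraicClosure L
  obtain ⟨W, Q, hW, hWc, hWQ, hQ⟩ := exists_WQ Ω A x V h.mem h.cen
  -- the local homomorphism `V → W`
  have hVW : ∀ a : L, a ∈ V → algebraMap L Ω a ∈ W := by
    intro a ha
    rw [← hW] at ha
    exact ha
  let ι : V →+* W := ((algebraMap L Ω).comp V.subtype).codRestrict W.toSubring
    (fun a => hVW a a.2)
  have hιl : IsLocalHom ι := by
    refine ⟨fun a ha => ?_⟩
    have h1 : W.valuation (ι a : Ω) = 1 := (W.valuation_eq_one_iff _).1 ha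
    have h2 : V.valuation (a : L) = 1 := by
      have h3 := (TG.comap_eq_one (F := L) W (a : L)).2 h1
      rw [hW] at h3
      exact h3
    exact (V.valuation_eq_one_iff _).2 h2
  let ιb := IsLocalRing.ResidueField.map ι
  have hιb : ∀ a : V, ιb (IsLocalRing.residue V a) = IsLocalRing.residue W (ι a) := fun a => rfl
  rw [eq_rootMultiplicity_map (f := ιb) ιb.injective, hιb, map_map]
  -- the map `A → W`
  let toW : A →+* W := ι.comp (toV h.mem)
  have hcomp : ιb.comp ((IsLocalRing.residue V).comp (toV h.mem)) =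
      (IsLocalRing.residue W).comp toW := rfl
  rw [hcomp]
  -- the roots of `f`
  have hcF : IsIntegral F (c : L) := Algebra.IsIntegral.isIntegral _
  let g : Polynomial Ω := (minpoly F (c : L)).map (algebraMap F Ω)
  have hgm : g.Monic := (minpoly.monic hcF).map _
  have hgs : g.Separable :=
    Polynomial.Separable.map (f := algebraMap F Ω) (Algebra.IsSeparable.isSeparable F (c : L))
  have hgr : g = (g.roots.map fun a => X - C a).prod :=
    (IsAlgClosed.splits g).eq_prod_roots_of_monic hgm
  have hnd : g.roots.Nodup := nodup_roots hgs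
  let s : Finset Ω := ⟨g.roots, hnd⟩
  have hτ : ∀ r : s, ∃ τ : L →ₐ[F] Ω, τ (c : L) = r := by
    intro r
    have h1 : (r : Ω) ∈ g.roots := r.2
    have h2 : (r : Ω) ∈ (minpoly F (c : L)).rootSet Ω := by
      rw [mem_rootSet]
      refine ⟨minpoly.ne_zero hcF, ?_⟩
      have h3 := (mem_roots hgm.ne_zero).1 h1
      rwa [IsRoot.def, eval_map_algebraMap] at h3
    rw [← Algebra.IsAlgebraic.range_eval_eq_rootSet_minpoly] at h2
    exact h2
  choose τ hτ using hτ
  have hrC : ∀ r : s, (r : Ω) ∈ ncl (up Ω A) := fun r => by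
    rw [← hτ r]
    exact map_mem_ncl_up A (τ r) c.2
  let rW : s → W := fun r => ⟨r, hWc _ (hrC r)⟩
  have hfW : f.map toW = ∏ r : s, (X - C (rW r)) := by
    apply map_injective W.subtype Subtype.val_injective
    rw [map_map]
    have h1 : W.subtype.comp toW = (algebraMap F Ω).comp (algebraMap A F) := by
      refine RingHom.ext fun a => ?_
      exact (IsScalarTower.algebraMap_apply F L Ω (a : F)).symm
    rw [h1, ← map_map, hf, Polynomial.map_prod]
    have h2 : ∀ r : s, (X - C (rW r)).map W.subtype = X - C (r : Ω) := by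
      intro r
      rw [Polynomial.map_sub, map_X, map_C]
      rfl
    rw [Finset.prod_congr rfl fun r _ => h2 r]
    rw [Finset.prod_coe_sort s (fun r => X - C r)]
    exact hgr
  rw [← map_map, hfW, Polynomial.map_prod]
  have h2 : ∀ r : s, (X - C (rW r)).map (IsLocalRing.residue W) =
      X - C (IsLocalRing.residue W (rW r)) := by
    intro r
    rw [Polynomial.map_sub, map_X, map_C]
  rw [Finset.prod_congr rfl fun r _ => h2 r]
  rw [← count_roots]
  have h3 : (∏ r : s, (X - C (IsLocalRing.residue W (rW r)))) =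
      ((Finset.univ.val.map fun r : s => IsLocalRing.residue W (rW r)).map
        fun a => X - C a).prod := by
    rw [Multiset.map_map]
    rfl
  rw [h3, roots_multiset_prod_X_sub_C, Multiset.count_map, ← Finset.filter_val]
  -- the comparison with the local degree
  have hxQ : x.comp (toC L A) = Q.comp (toC Ω A) := by
    refine AlgHom.ext fun a => ?_
    have h4 := hQ (toC L A a)
    have h5 : mapC A (IsScalarTower.toAlgHom F L Ω) (toC L A a) = toC Ω A a :=
      DFunLike.congr_fun (mapC_comp_toC (Ω := Ω) A (IsScalarTower.toAlgHom F L Ω)) a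
    rw [h5] at h4
    exact h4.symm
  rw [rho_eq hA Q x hxQ, rhoQ, Algebra.IsSeparable.finInsepDegree_eq, one_mul]
  have hfin : Finite (L →ₐ[F] Ω) := inferInstance
  have hcen : ∀ r : s, IsLocalRing.residue W (ι ⟨(c : L), h.mem c c.2⟩) =
      IsLocalRing.residue W (rW r) → cen A Q (τ r) = x := by
    intro r hr
    refine hc _ ?_ ?_
    · rw [cen_over, hxQ]
    · let r' : ncl (up Ω A) := mapC A (τ r) c
      let c' : ncl (up Ω A) := mapC A (IsScalarTower.toAlgHom F L Ω) c
      have h4 : W.valuation ((c' - r' : ncl (up Ω A)) : Ω) < 1 := by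
        rw [← sub_eq_zero, ← map_sub, IsLocalRing.residue_eq_zero_iff] at hr
        replace hr := (W.valuation_lt_one_iff _).1 hr
        have h5 : ((c' - r' : ncl (up Ω A)) : Ω) =
            ((ι ⟨(c : L), h.mem c c.2⟩ - rW r : W) : Ω) := by
          change algebraMap L Ω (c : L) - τ r (c : L) = algebraMap L Ω (c : L) - (r : Ω)
          rw [hτ]
        rw [h5]
        exact hr
      have h6 := hWQ _ h4
      rw [map_sub, hQ, sub_eq_zero] at h6
      exact h6.symm
  let T : Finset s := Finset.univ.filter fun r =>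
    IsLocalRing.residue W (ι ⟨(c : L), h.mem c c.2⟩) = IsLocalRing.residue W (rW r)
  change T.card ≤ _
  rw [← Fintype.card_coe, ← Nat.card_eq_fintype_card]
  refine Nat.card_le_card_of_injective
    (fun r : T => (⟨τ r, hcen r (Finset.mem_filter.1 r.2).2⟩ : {σ // cen A Q σ = x})) ?_
  intro r r' hrr
  have h4 : τ (r : s) = τ (r' : s) := congrArg Subtype.val hrr
  apply Subtype.ext
  apply Subtype.ext
  rw [← hτ, ← hτ, h4]

end Mult

end Pool.Agent.TGBC90
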