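import Pool.Agent.Lib.TGBC_h90.Sep

/-!
# TANK G, (BC5e): the ramification index is at most `rho`
-/

set_option autoImplicit false

namespace Pool.Agent.TGBC90

open Polynomial
open Pool.Agent.TG (ncl up)
open Pool.Agent.TG82

universe u

section Ram

variable {k F L : Type u} [Field k] [IsAlgClosed k] [Field F] [Field L] [Algebra k F]
  [Algebra k L] [Algebra F L] [IsScalarTower k F L] [FiniteDimensional F L]
  [Algebra.IsSeparable F L]

/-- **The ramification index is at most `rho`.** -/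
theorem le_rho {A : Subalgebra k F} (hA : ∀ b : F, IsIntegral A b → b ∈ A)
    {x : ncl (up L A) →ₐ[k] k} {V : ValuationSubring L} (h : Thru A x V)
    (hp : ∀ j : ℕ, 0 < j → j ≤ rho A x → (j : k) ≠ 0)
    {t : L} (ht0 : t ≠ 0) (ht : V.valuation t < 1) (htd : ∀ a, V.valuation a < 1 → a / t ∈ V)
    {P : F} (hP0 : P ≠ 0)
    (hP : ∀ a : F, V.valuation (algebraMap F L a) < 1 → algebraMap F L (a / P) ∈ V)
    {e : ℕ} (hPe : V.valuation (algebraMap F L P) ≤ V.valuation t ^ e) : e ≤ rho A x := by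
  classical
  letI := resAlg F V
  have hvt0 : V.valuation t ≠ 0 := (Valuation.ne_zero_iff _).2 ht0
  have hdiv : ∀ a, V.valuation a < 1 → V.valuation a ≤ V.valuation t := by
    intro a ha
    have h1 := (V.valuation_le_one_iff _).2 (htd a ha)
    rw [map_div₀] at h1
    exact (div_le_one₀ (zero_lt_iff.2 hvt0)).1 h1
  obtain ⟨c₀, hc₀⟩ := exists_good hA x
  set a₀ := IsLocalRing.residue V ⟨c₀, h.mem c₀ c₀.2⟩ with ha₀
  have hs : IsSeparable (IsLocalRing.ResidueField (Oo F V)) a₀ := sep_residue hA h hp _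
  set μ := minpoly (IsLocalRing.ResidueField (Oo F V)) a₀ with hμ
  obtain ⟨g₀, hg₀⟩ := Polynomial.map_surjective _ IsLocalRing.residue_surjective μ
  -- evaluation of polynomials over `V ∩ F`
  have hev : ∀ (q : Polynomial (Oo F V)) (b : V),
      IsLocalRing.residue V (q.eval₂ (oV F V) b) =
      aeval (IsLocalRing.residue V b) (q.map (IsLocalRing.residue (Oo F V))) := by
    intro q b
    rw [Polynomial.hom_eval₂, aeval_def, eval₂_map]
    rfl
  have hlt : ∀ b : V, V.valuation (b : L) < 1 ↔ IsLocalRing.residue V b = 0 := by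
    intro b
    rw [IsLocalRing.residue_eq_zero_iff]
    exact (V.valuation_lt_one_iff _).symm
  have heq1 : ∀ b : V, V.valuation (b : L) = 1 ↔ IsLocalRing.residue V b ≠ 0 := by
    intro b
    rw [IsLocalRing.residue_ne_zero_iff_isUnit]
    exact (V.valuation_eq_one_iff _).symm
  -- a uniformizer in `C`
  obtain ⟨π, hπ, s, hsC, hvs, hts⟩ := h.loc t ((V.valuation_le_one_iff _).1 ht.le)
  have hs0 : s ≠ 0 := by rintro rfl; simp at hvs
  have hvπ : V.valuation π = V.valuation t := by
    have h1 : π = t * s := by rw [hts, div_mul_cancel₀ _ hs0]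
    rw [h1, map_mul, hvs, mul_one]
  -- a good element `c` such that `g₀ (c)` is a uniformizer
  have key : ∃ c : ncl (up L A), Good A x c ∧
      IsLocalRing.residue V ⟨c, h.mem c c.2⟩ = a₀ ∧
      V.valuation ((g₀.eval₂ (oV F V) ⟨c, h.mem c c.2⟩ : V) : L) = V.valuation t := by
    by_cases h1 : V.valuation ((g₀.eval₂ (oV F V) ⟨c₀, h.mem c₀ c₀.2⟩ : V) : L) = V.valuation t
    · exact ⟨c₀, hc₀, rfl, h1⟩
    have h2 : V.valuation ((g₀.eval₂ (oV F V) ⟨c₀, h.mem c₀ c₀.2⟩ : V) : L) < 1 := by
      rw [hlt, hev, hg₀, hμ]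
      exact minpoly.aeval _ _
    have h3 := lt_of_le_of_ne (hdiv _ h2) h1
    obtain ⟨l, hl, hgl⟩ := exists_good_add hA hc₀ ⟨π, hπ⟩ {0}
    have hl0 : l ≠ 0 := by simpa using hl
    let y : V := ⟨l • π, h.mem _ (Subalgebra.smul_mem _ hπ l)⟩
    have hvl : V.valuation (algebraMap k L l) = 1 := by
      have hk : ∀ l : k, V.valuation (algebraMap k L l) ≤ 1 := fun l =>
        (V.valuation_le_one_iff _).2 (h.mem _ ((ncl (up L A)).algebraMap_mem l))
      refine le_antisymm (hk l) ?_
      have h4 := hk l⁻¹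
      rw [map_inv₀, map_inv₀] at h4
      have h5 : V.valuation (algebraMap k L l) ≠ 0 :=
        (Valuation.ne_zero_iff _).2 ((_root_.map_ne_zero _).2 hl0)
      exact (inv_le_one₀ (zero_lt_iff.2 h5)).1 h4
    have hvy : V.valuation (y : L) = V.valuation t := by
      change V.valuation (l • π) = _
      rw [Algebra.smul_def, map_mul, hvl, one_mul, hvπ]
    have hsum : (⟨((c₀ + l • ⟨π, hπ⟩ : ncl (up L A)) : L), h.mem _ (c₀ + l • ⟨π, hπ⟩ : ncl (up L A)).2⟩ :
        V) = ⟨c₀, h.mem c₀ c₀.2⟩ + y := rfl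
    refine ⟨_, hgl, ?_, ?_⟩
    · rw [hsum, map_add, (hlt y).1 (by rw [hvy]; exact ht), add_zero]
    · obtain ⟨k', hk'⟩ := (g₀.map (oV F V)).binomExpansion ⟨c₀, h.mem c₀ c₀.2⟩ y
      rw [hsum, ← eval_map, hk']
      rw [← eval_map] at h3
      have h4 : V.valuation (((derivative (g₀.map (oV F V))).eval ⟨c₀, h.mem c₀ c₀.2⟩ : V) : L) =
          1 := by
        rw [derivative_map, eval_map, heq1, hev, ← derivative_map, hg₀]
        exact Separable.aeval_derivative_ne_zero hs (minpoly.aeval _ _)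
      change V.valuation (((eval ⟨c₀, h.mem c₀ c₀.2⟩ (g₀.map (oV F V)) : V) : L) +
        ((eval ⟨c₀, h.mem c₀ c₀.2⟩ (derivative (g₀.map (oV F V))) : V) : L) * (y : L) +
        (k' : L) * (y : L) ^ 2) = _
      have h5 : V.valuation (((eval ⟨c₀, h.mem c₀ c₀.2⟩ (derivative (g₀.map (oV F V))) : V) : L) *
          (y : L)) = V.valuation t := by
        rw [map_mul, h4, one_mul, hvy]
      have h6 : V.valuation ((k' : L) * (y : L) ^ 2) < V.valuation t := by
        rw [map_mul, map_pow, hvy]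
        calc V.valuation (k' : L) * V.valuation t ^ 2 ≤ 1 * V.valuation t ^ 2 :=
              mul_le_mul_left ((V.valuation_le_one_iff _).2 k'.2) _
          _ = V.valuation t * V.valuation t := by rw [one_mul, pow_two]
          _ < 1 * V.valuation t := mul_lt_mul_of_pos_right ht (zero_lt_iff.2 hvt0)
          _ = V.valuation t := one_mul _
      rw [Valuation.map_add_eq_of_lt_left, Valuation.map_add_eq_of_lt_right, h5]
      · rw [h5]; exact h3
      · rw [Valuation.map_add_eq_of_lt_right _ (by rw [h5]; exact h3), h5]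
        exact h6
  obtain ⟨c, hc, hca, hcv⟩ := key
  obtain ⟨f, hfm, hf⟩ := exists_minpoly_lift hA c
  have hmult := mult_le_rho hA h hc hf
  change rootMultiplicity _ (f.map (red h.mem)) ≤ _ at hmult
  rw [hca] at hmult
  let ιb := IsLocalRing.ResidueField.map (oV F V)
  let fO : Polynomial (Oo F V) := f.map (toO h.mem)
  let fb := fO.map (IsLocalRing.residue (Oo F V))
  have hfb : f.map (red h.mem) = fb.map ιb := by
    rw [red_eq, ← map_map, ← map_map]
  have hfb0 : fb ≠ 0 := ((hfm.map _).map _).ne_zero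
  have hint : IsIntegral (IsLocalRing.ResidueField (Oo F V)) a₀ := hs.isIntegral
  have hfin : FiniteMultiplicity μ fb :=
    FiniteMultiplicity.of_not_isUnit (minpoly.not_isUnit _ _) hfb0
  obtain ⟨q, hq, hqn⟩ := hfin.exists_eq_pow_mul_and_not_dvd
  set j := multiplicity μ fb with hj
  have hjr : j ≤ rho A x := by
    refine le_trans ((le_rootMultiplicity_iff (hfm.map _).ne_zero).2 ?_) hmult
    rw [hfb, hq, Polynomial.map_mul, Polynomial.map_pow]
    refine Dvd.dvd.mul_right (pow_dvd_pow_of_dvd ?_ _) _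
    rw [dvd_iff_isRoot, IsRoot.def, eval_map]
    exact minpoly.aeval (IsLocalRing.ResidueField (Oo F V)) a₀
  refine le_trans ?_ hjr
  obtain ⟨q₀, hq₀⟩ := Polynomial.map_surjective _ (IsLocalRing.residue_surjective (R := Oo F V)) q
  let r : Polynomial (Oo F V) := fO - g₀ ^ j * q₀
  have hr : ∀ i, V.valuation (algebraMap F L (r.coeff i : F)) < 1 := by
    intro i
    have h1 : r.map (IsLocalRing.residue (Oo F V)) = 0 := by
      rw [Polynomial.map_sub, Polynomial.map_mul, Polynomial.map_pow, hg₀, hq₀, sub_eq_zero]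
      exact hq
    have h2 : IsLocalRing.residue (Oo F V) (r.coeff i) = 0 := by
      rw [← coeff_map, h1, coeff_zero]
    rw [IsLocalRing.residue_eq_zero_iff] at h2
    exact (TG.comap_lt_one V _).1 ((ValuationSubring.valuation_lt_one_iff _ _).1 h2)
  let cV : V := ⟨c, h.mem c c.2⟩
  have hrP : V.valuation ((r.eval₂ (oV F V) cV : V) : L) ≤ V.valuation (algebraMap F L P) := by
    have h1 : ((r.eval₂ (oV F V) cV : V) : L) = ∑ i ∈ Finset.range (r.natDegree + 1),
        algebraMap F L (r.coeff i : F) * (c : L) ^ i := by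
      rw [eval₂_eq_sum_range]
      change V.subtype _ = _
      rw [map_sum]
      rfl
    rw [h1]
    refine Valuation.map_sum_le _ fun i _ => ?_
    have h2 := (V.valuation_le_one_iff _).2 (hP _ (hr i))
    have h3 : algebraMap F L (r.coeff i : F) = algebraMap F L P *
        algebraMap F L ((r.coeff i : F) / P) := by
      rw [← map_mul, mul_div_cancel₀ _ hP0]
    rw [h3, map_mul, map_mul]
    have h4 : V.valuation ((c : L) ^ i) ≤ 1 :=
      (V.valuation_le_one_iff _).2 (pow_mem (h.mem c c.2) i)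
    exact (mul_le_of_le_one_right' h4).trans (mul_le_of_le_one_right' h2)
  have hfc : fO.eval₂ (oV F V) cV = 0 := by
    apply Subtype.ext
    change V.subtype _ = _
    rw [Polynomial.hom_eval₂, eval₂_map]
    have h2 := aeval_map_algebraMap (R := A) (A := F) (B := L) (c : L) f
    rw [hf, minpoly.aeval] at h2
    exact h2.symm
  have hqc : V.valuation ((q₀.eval₂ (oV F V) cV : V) : L) = 1 := by
    rw [heq1, hev, hq₀]
    intro h1
    apply hqn
    rw [hμ]
    refine minpoly.dvd _ _ ?_
    rw [← hca]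
    exact h1
  have hfinal : V.valuation t ^ j ≤ V.valuation (algebraMap F L P) := by
    have h1 : r.eval₂ (oV F V) cV = -((g₀.eval₂ (oV F V) cV) ^ j * q₀.eval₂ (oV F V) cV) := by
      rw [eval₂_sub, hfc, eval₂_mul, eval₂_pow, zero_sub]
    rw [h1] at hrP
    have h2 : (((-((g₀.eval₂ (oV F V) cV) ^ j * q₀.eval₂ (oV F V) cV) : V)) : L) =
        -(((g₀.eval₂ (oV F V) cV : V) : L) ^ j * ((q₀.eval₂ (oV F V) cV : V) : L)) := rfl
    rw [h2, Valuation.map_neg, map_mul, map_pow, hcv, hqc, mul_one] at hrP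
    exact hrP
  by_contra hlt'
  push Not at hlt'
  have h1 := hfinal.trans hPe
  exact absurd h1 (not_le.2 (pow_lt_pow_right_of_lt_one₀ (zero_lt_iff.2 hvt0) ht hlt'))

end Ram

end Pool.Agent.TGBC90
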