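import Pool.Agent.Lib.TGBC_h90.Mult

/-!
# TANK G, (BC5e): the residue field extension is separable
-/

set_option autoImplicit false

namespace Pool.Agent.TGBC90

open Polynomial
open Pool.Agent.TG (ncl up)
open Pool.Agent.TG82

universe u

/-- A simple root of a polynomial is separable. -/
theorem isSeparable_of_simple {K₀ K₁ : Type*} [Field K₀] [Field K₁] [Algebra K₀ K₁] {a : K₁}
    (G : Polynomial K₀) (h0 : aeval a G = 0) (h1 : aeval a (derivative G) ≠ 0) :
    IsSeparable K₀ a := by
  have hG : G ≠ 0 := by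
    rintro rfl
    simp at h1
  have hint : IsIntegral K₀ a := by
    rw [← isAlgebraic_iff_isIntegral]
    exact ⟨G, hG, h0⟩
  obtain ⟨q, hq⟩ := minpoly.dvd K₀ a h0
  unfold IsSeparable
  rw [separable_iff_derivative_ne_zero (minpoly.irreducible hint)]
  intro h2
  apply h1
  rw [hq, derivative_mul, h2, zero_mul, zero_add, map_mul, minpoly.aeval, zero_mul]

section Eval

variable {k F L : Type u} [Field k] [Field F] [Field L] [Algebra k F] [Algebra k L]
  [Algebra F L] [IsScalarTower k F L]

/-- The reduction `A → κ(V)`. -/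
noncomputable def red {A : Subalgebra k F} {V : ValuationSubring L}
    (hV : ∀ c ∈ ncl (up L A), c ∈ V) : A →+* IsLocalRing.ResidueField V :=
  (IsLocalRing.residue V).comp (toV hV)

variable {A : Subalgebra k F} {V : ValuationSubring L} (hV : ∀ c ∈ ncl (up L A), c ∈ V)

theorem aeval_eq (G : Polynomial A) (b : V) :
    aeval (b : L) G = ((G.eval₂ (toV hV) b : V) : L) := by
  have h1 := Polynomial.hom_eval₂ G (toV hV) V.subtype b
  exact h1.symm

theorem residue_eval (G : Polynomial A) (b : V) :
    IsLocalRing.residue V (G.eval₂ (toV hV) b) =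
      (G.map (red hV)).eval (IsLocalRing.residue V b) := by
  rw [eval_map, Polynomial.hom_eval₂]
  rfl

theorem val_lt_iff (G : Polynomial A) (b : V) : V.valuation (aeval (b : L) G) < 1 ↔
    (G.map (red hV)).eval (IsLocalRing.residue V b) = 0 := by
  rw [aeval_eq hV, ← residue_eval, IsLocalRing.residue_eq_zero_iff]
  exact (V.valuation_lt_one_iff _).symm

theorem val_eq_iff (G : Polynomial A) (b : V) : V.valuation (aeval (b : L) G) = 1 ↔
    (G.map (red hV)).eval (IsLocalRing.residue V b) ≠ 0 := by
  rw [Ne, ← val_lt_iff, not_lt]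
  have h1 : V.valuation (aeval (b : L) G) ≤ 1 := by
    rw [aeval_eq hV]
    exact (V.valuation_le_one_iff _).2 (G.eval₂ (toV hV) b).2
  exact ⟨fun h => h.ge, fun h => le_antisymm h1 h⟩

end Eval

section GoodSec

variable {k F L : Type u} [Field k] [IsAlgClosed k] [Field F] [Field L] [Algebra k F]
  [Algebra k L] [Algebra F L] [IsScalarTower k F L] [FiniteDimensional F L]

theorem exists_good {A : Subalgebra k F} (hA : ∀ b : F, IsIntegral A b → b ∈ A)
    (x : ncl (up L A) →ₐ[k] k) : ∃ c : ncl (up L A), Good A x c := by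
  classical
  obtain ⟨c, hc⟩ := exists_values' (finite_points hA (x.comp (toC L A))).toFinset
    (fun y => if y = x then 0 else 1)
  refine ⟨c, fun y hy hyx => ?_⟩
  by_contra hne
  rw [hc y ((finite_points hA (x.comp (toC L A))).mem_toFinset.2 hy),
    hc x ((finite_points hA (x.comp (toC L A))).mem_toFinset.2 rfl), if_neg hne, if_pos rfl] at hyx
  exact one_ne_zero hyx

theorem exists_good_add {A : Subalgebra k F} (hA : ∀ b : F, IsIntegral A b → b ∈ A)
    {x : ncl (up L A) →ₐ[k] k} {c : ncl (up L A)} (hc : Good A x c) (d : ncl (up L A))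
    (S : Finset k) : ∃ l : k, l ∉ S ∧ Good A x (c + l • d) := by
  classical
  have hinf : Infinite k := IsAlgClosed.instInfinite
  let X : Finset (ncl (up L A) →ₐ[k] k) := (finite_points hA (x.comp (toC L A))).toFinset
  let S' : Finset k := S ∪ X.image fun y => -(y c - x c) / (y d - x d)
  obtain ⟨l, hl⟩ := Infinite.exists_notMem_finset S'
  rw [Finset.notMem_union] at hl
  refine ⟨l, hl.1, fun y hy hyx => ?_⟩
  by_contra hne
  have hyX : y ∈ X := (finite_points hA (x.comp (toC L A))).mem_toFinset.2 hy
  have h1 : y c - x c ≠ 0 := fun h => hne (hc y hy (sub_eq_zero.1 h))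
  have h2 : (y c - x c) + l * (y d - x d) = 0 := by
    rw [map_add, map_add, map_smul, map_smul, smul_eq_mul, smul_eq_mul] at hyx
    linear_combination hyx
  have h3 : y d - x d ≠ 0 := by
    intro h
    rw [h, mul_zero, add_zero] at h2
    exact h1 h2
  apply hl.2
  refine Finset.mem_image.2 ⟨y, hyX, ?_⟩
  rw [div_eq_iff h3]
  linear_combination -h2

end GoodSec

section Main

variable {k F L : Type u} [Field k] [IsAlgClosed k] [Field F] [Field L] [Algebra k F]
  [Algebra k L] [Algebra F L] [IsScalarTower k F L] [FiniteDimensional F L]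
  [Algebra.IsSeparable F L]

/-- **Good elements are simple roots modulo the maximal ideal.** -/
theorem simple_of_good {A : Subalgebra k F} (hA : ∀ b : F, IsIntegral A b → b ∈ A)
    {x : ncl (up L A) →ₐ[k] k} {V : ValuationSubring L} (h : Thru A x V)
    (hp : ∀ j : ℕ, 0 < j → j ≤ rho A x → (j : k) ≠ 0) {c : ncl (up L A)} (hc : Good A x c) :
    ∃ G : Polynomial A, (G.map (red h.mem)).eval (IsLocalRing.residue V ⟨c, h.mem c c.2⟩) = 0 ∧
      ((derivative G).map (red h.mem)).eval (IsLocalRing.residue V ⟨c, h.mem c c.2⟩) ≠ 0 := by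
  classical
  obtain ⟨f, hfm, hf⟩ := exists_minpoly_lift hA c
  have hmult := mult_le_rho hA h hc hf
  change rootMultiplicity _ (f.map (red h.mem)) ≤ _ at hmult
  set a := IsLocalRing.residue V ⟨c, h.mem c c.2⟩ with ha
  set p := f.map (red h.mem) with hp'
  have hp0 : p ≠ 0 := (hfm.map _).ne_zero
  have hroot : p.eval a = 0 := by
    rw [hp', ha, ← val_lt_iff]
    have h1 : aeval (((⟨c, h.mem c c.2⟩ : V) : V) : L) f = 0 := by
      have h2 := aeval_map_algebraMap (R := A) (A := F) (B := L) (c : L) f
      rw [hf, minpoly.aeval] at h2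
      exact h2.symm
    rw [h1, map_zero]
    exact zero_lt_one
  have hm0 : 0 < rootMultiplicity a p := (rootMultiplicity_pos hp0).2 hroot
  set m := rootMultiplicity a p with hm
  refine ⟨derivative^[m - 1] f, ?_, ?_⟩
  · rw [← iterate_derivative_map]
    have hlt : m - 1 < rootMultiplicity a p := by omega
    exact isRoot_iterate_derivative_of_lt_rootMultiplicity hlt
  · rw [← Function.iterate_succ_apply' derivative, show (m - 1).succ = m by omega,
      ← iterate_derivative_map, ← hp', hm, eval_iterate_derivative_rootMultiplicity, nsmul_eq_mul]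
    refine mul_ne_zero ?_ (eval_divByMonic_pow_rootMultiplicity_ne_zero a hp0)
    have h1 : ((m.factorial : ℕ) : k) ≠ 0 := by
      have h2 : ∀ j : ℕ, j ≤ m → ((j.factorial : ℕ) : k) ≠ 0 := by
        intro j
        induction j with
        | zero => intro _; simp
        | succ j ih =>
          intro hj
          rw [Nat.factorial_succ, Nat.cast_mul]
          exact mul_ne_zero (hp (j + 1) (by omega) (by omega)) (ih (by omega))
      exact h2 m le_rfl
    let θ : k →+* IsLocalRing.ResidueField V := (red h.mem).comp (algebraMap k A)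
    have h2 : ((m.factorial : ℕ) : IsLocalRing.ResidueField V) = θ ((m.factorial : ℕ) : k) :=
      (map_natCast θ _).symm
    rw [h2]
    exact (map_ne_zero_iff _ θ.injective).2 h1

end Main

section Res

variable {k F L : Type u} [Field k] [Field F] [Field L] [Algebra k F] [Algebra k L]
  [Algebra F L] [IsScalarTower k F L]

/-- The trace of `V` on `F`. -/
abbrev Oo (F : Type u) [Field F] {L : Type u} [Field L] [Algebra F L] (V : ValuationSubring L) :
    ValuationSubring F := V.comap (algebraMap F L)

/-- The local homomorphism `V ∩ F → V`. -/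
def oV (F : Type u) [Field F] {L : Type u} [Field L] [Algebra F L] (V : ValuationSubring L) :
    Oo F V →+* V :=
  ((algebraMap F L).comp (Oo F V).subtype).codRestrict V.toSubring (fun a => a.2)

theorem oV_coe (V : ValuationSubring L) (a : Oo F V) : ((oV F V a : V) : L) = algebraMap F L a :=
  rfl

instance oV_local (V : ValuationSubring L) : IsLocalHom (oV F V) := by
  refine ⟨fun a ha => ?_⟩
  have h1 : V.valuation (oV F V a : L) = 1 := (V.valuation_eq_one_iff _).1 ha
  exact ((Oo F V).valuation_eq_one_iff _).2 ((TG.comap_eq_one V (a : F)).2 h1)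

/-- The residue field extension. -/
noncomputable abbrev resAlg (F : Type u) [Field F] {L : Type u} [Field L] [Algebra F L]
    (V : ValuationSubring L) :
    Algebra (IsLocalRing.ResidueField (Oo F V)) (IsLocalRing.ResidueField V) :=
  (IsLocalRing.ResidueField.map (oV F V)).toAlgebra

/-- The map `A → V ∩ F`. -/
def toO {A : Subalgebra k F} {V : ValuationSubring L} (hV : ∀ c ∈ ncl (up L A), c ∈ V) :
    A →+* Oo F V :=
  A.val.toRingHom.codRestrict (Oo F V).toSubring (fun a => hV _ (mem_ncl_up A a.2))

theorem red_eq {A : Subalgebra k F} {V : ValuationSubring L} (hV : ∀ c ∈ ncl (up L A), c ∈ V) :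
    red hV = (IsLocalRing.ResidueField.map (oV F V)).comp
      ((IsLocalRing.residue (Oo F V)).comp (toO hV)) := rfl

end Res

section Sep

variable {k F L : Type u} [Field k] [IsAlgClosed k] [Field F] [Field L] [Algebra k F]
  [Algebra k L] [Algebra F L] [IsScalarTower k F L] [FiniteDimensional F L]
  [Algebra.IsSeparable F L]

/-- **The residues of all elements of `V` are separable.** -/
theorem sep_residue {A : Subalgebra k F} (hA : ∀ b : F, IsIntegral A b → b ∈ A)
    {x : ncl (up L A) →ₐ[k] k} {V : ValuationSubring L} (h : Thru A x V)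
    (hp : ∀ j : ℕ, 0 < j → j ≤ rho A x → (j : k) ≠ 0) (a : V) :
    letI := resAlg F V
    IsSeparable (IsLocalRing.ResidueField (Oo F V)) (IsLocalRing.residue V a) := by
  classical
  letI := resAlg F V
  -- good elements
  have hgood : ∀ c : ncl (up L A), Good A x c →
      IsSeparable (IsLocalRing.ResidueField (Oo F V))
        (IsLocalRing.residue V ⟨c, h.mem c c.2⟩) := by
    intro c hc
    obtain ⟨G, hG0, hG1⟩ := simple_of_good hA h hp hc
    refine isSeparable_of_simple (G.map ((IsLocalRing.residue (Oo F V)).comp (toO h.mem))) ?_ ?_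
    · rw [aeval_def, eval₂_map, ← eval_map]
      exact hG0
    · rw [derivative_map, aeval_def, eval₂_map, ← eval_map]
      exact hG1
  -- the constants
  have hconst : ∀ l : k, IsSeparable (IsLocalRing.ResidueField (Oo F V))
      (red h.mem (algebraMap k A l)) := by
    intro l
    exact isSeparable_algebraMap (F := IsLocalRing.ResidueField (Oo F V))
      (IsLocalRing.residue (Oo F V) (toO h.mem (algebraMap k A l)))
  -- all elements of `C`
  have hC : ∀ c : ncl (up L A), IsSeparable (IsLocalRing.ResidueField (Oo F V))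
      (IsLocalRing.residue V ⟨c, h.mem c c.2⟩) := by
    intro c
    obtain ⟨c₀, hc₀⟩ := exists_good hA x
    obtain ⟨l, hl, hgl⟩ := exists_good_add hA hc₀ c {0}
    have hl0 : l ≠ 0 := by simpa using hl
    have h1 := hgood _ hgl
    have h2 := hgood _ hc₀
    have h3 : IsLocalRing.residue V ⟨c, h.mem c c.2⟩ =
        (IsLocalRing.residue V ⟨(c₀ + l • c : ncl (up L A)), h.mem _ (c₀ + l • c).2⟩ -
          IsLocalRing.residue V ⟨c₀, h.mem c₀ c₀.2⟩) * (red h.mem (algebraMap k A l))⁻¹ := by
      have hne : red h.mem (algebraMap k A l) ≠ 0 := by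
        let θ : k →+* IsLocalRing.ResidueField V := (red h.mem).comp (algebraMap k A)
        exact (map_ne_zero_iff _ θ.injective).2 hl0
      rw [eq_mul_inv_iff_mul_eq₀ hne]
      have h4 : red h.mem (algebraMap k A l) =
          IsLocalRing.residue V (toV h.mem (algebraMap k A l)) := rfl
      rw [h4, ← map_mul, ← map_sub]
      congr 1
      apply Subtype.ext
      change (c : L) * algebraMap F L (algebraMap k F l) = ((c₀ : L) + l • (c : L)) - (c₀ : L)
      rw [← IsScalarTower.algebraMap_apply, Algebra.smul_def]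
      ring
    rw [h3]
    exact Field.isSeparable_mul (Field.isSeparable_sub h1 h2) (Field.isSeparable_inv (hconst l))
  obtain ⟨c, hc, s, hs, hvs, hacs⟩ := h.loc a a.2
  have hs0 : s ≠ 0 := by rintro rfl; simp at hvs
  have h1 := hC ⟨c, hc⟩
  have h2 := hC ⟨s, hs⟩
  have h3 : IsLocalRing.residue V a = IsLocalRing.residue V ⟨c, h.mem c hc⟩ *
      (IsLocalRing.residue V ⟨s, h.mem s hs⟩)⁻¹ := by
    have hne : IsLocalRing.residue V ⟨s, h.mem s hs⟩ ≠ 0 := by
      intro h4
      rw [IsLocalRing.residue_eq_zero_iff] at h4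
      have h5 := (V.valuation_lt_one_iff _).1 h4
      change V.valuation s < 1 at h5
      rw [hvs] at h5
      exact lt_irrefl _ h5
    rw [eq_mul_inv_iff_mul_eq₀ hne, ← map_mul]
    congr 1
    apply Subtype.ext
    change (a : L) * s = c
    rw [hacs, div_mul_cancel₀ _ hs0]
  rw [h3]
  exact Field.isSeparable_mul h1 (Field.isSeparable_inv h2)

/-- **Separability, in terms of polynomials over `A`.** -/
theorem hsep_of_rho {A : Subalgebra k F} (hA : ∀ b : F, IsIntegral A b → b ∈ A)
    {x : ncl (up L A) →ₐ[k] k} {V : ValuationSubring L} (h : Thru A x V)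
    (hp : ∀ j : ℕ, 0 < j → j ≤ rho A x → (j : k) ≠ 0)
    (hO : ∀ a : F, algebraMap F L a ∈ V → ∃ b ∈ A, ∃ s ∈ A,
      V.valuation (algebraMap F L s) = 1 ∧ a = b / s) (a : L) (ha : a ∈ V) :
    ∃ G : Polynomial A, V.valuation (aeval a G) < 1 ∧ V.valuation (aeval a (derivative G)) = 1 := by
  classical
  letI := resAlg F V
  have hs := sep_residue hA h hp ⟨a, ha⟩
  set μ := minpoly (IsLocalRing.ResidueField (Oo F V)) (IsLocalRing.residue V ⟨a, ha⟩) with hμ
  obtain ⟨p₀, hp₀⟩ := Polynomial.map_surjective _ IsLocalRing.residue_surjective μ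
  -- evaluation of polynomials over `V ∩ F`
  have hev : ∀ q : Polynomial (Oo F V), IsLocalRing.residue V (q.eval₂ (oV F V) ⟨a, ha⟩) =
      aeval (IsLocalRing.residue V ⟨a, ha⟩) (q.map (IsLocalRing.residue (Oo F V))) := by
    intro q
    rw [Polynomial.hom_eval₂, aeval_def, eval₂_map]
    rfl
  have h0 : V.valuation ((p₀.eval₂ (oV F V) ⟨a, ha⟩ : V) : L) < 1 := by
    rw [← V.valuation_lt_one_iff, ← IsLocalRing.residue_eq_zero_iff, hev, hp₀, minpoly.aeval]
  have h1 : V.valuation (((derivative p₀).eval₂ (oV F V) ⟨a, ha⟩ : V) : L) = 1 := by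
    rw [← V.valuation_eq_one_iff, ← IsLocalRing.residue_ne_zero_iff_isUnit, hev,
      ← derivative_map, hp₀]
    exact Separable.aeval_derivative_ne_zero hs (minpoly.aeval _ _)
  -- denominators
  let p : Polynomial F := p₀.map (Oo F V).subtype
  obtain ⟨s, hsA, hvs, hsp⟩ := TG.exists_den (V := Oo F V) A p fun i => by
    obtain ⟨b, hb, s, hs, hvs, hbs⟩ := hO (p.coeff i) (by
      rw [Polynomial.coeff_map]
      exact (p₀.coeff i).2)
    exact ⟨b, hb, s, hs, (TG.comap_eq_one V s).2 hvs, hbs⟩
  rw [TG.comap_eq_one] at hvs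
  have hlift : C s * p ∈ lifts (algebraMap A F) := by
    rw [lifts_iff_coeff_lifts]
    intro i
    rw [coeff_C_mul]
    exact ⟨⟨_, hsp i⟩, rfl⟩
  obtain ⟨G, hG⟩ := (mem_lifts _).1 hlift
  have hGev : ∀ (G' : Polynomial A) (q : Polynomial (Oo F V)),
      G'.map (algebraMap A F) = C s * q.map (Oo F V).subtype →
      aeval a G' = algebraMap F L s * ((q.eval₂ (oV F V) ⟨a, ha⟩ : V) : L) := by
    intro G' q hq
    have h2 := aeval_map_algebraMap (R := A) (A := F) (B := L) a G'
    rw [← h2, hq, map_mul, aeval_C]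
    congr 1
    have h3 := Polynomial.hom_eval₂ q (oV F V) V.subtype ⟨a, ha⟩
    rw [aeval_def, eval₂_map]
    exact h3.symm
  refine ⟨G, ?_, ?_⟩
  · rw [hGev G p₀ hG, map_mul, hvs, one_mul]
    exact h0
  · rw [hGev (derivative G) (derivative p₀) (by
      rw [← derivative_map, hG, derivative_C_mul, derivative_map]), map_mul, hvs, one_mul]
    exact h1

end Sep

end Pool.Agent.TGBC90
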