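import Pool.Agent.Lib.TG_h82.Rho

/-!
# TANK G, bridge B -> C, (BC5e): tameness at height one primes from `rho < p`

`C = ncl (up L A)`, `x` a `k`-point of `C`, `V` a valuation ring of `L` containing `C` with centre
`E ≤ ker x` and `V = C_E`.  The basic bound `mult_le_rho`: for `c ∈ C` separating `x` from the other
points over the same point of `A`, the multiplicity of the residue of `c` as a root of the reduced
minimal polynomial of `c` over `F` is at most `rho A x`.
-/

set_option autoImplicit false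

namespace Pool.Agent.TGBC90

open Polynomial
open Pool.Agent.TG (ncl up)
open Pool.Agent.TG82

universe u

section Defs

variable {k F L : Type u} [Field k] [Field F] [Field L] [Algebra k F] [Algebra k L]
  [Algebra F L] [IsScalarTower k F L]

/-- `V` contains the integral closure `C` of `A` in `L`, its centre `E` on `C` is contained in the
kernel of the point `x`, and `V = C_E`. -/
structure Thru (A : Subalgebra k F) (x : ncl (up L A) →ₐ[k] k) (V : ValuationSubring L) :
    Prop where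
  mem : ∀ c ∈ ncl (up L A), c ∈ V
  cen : ∀ c : ncl (up L A), V.valuation (c : L) < 1 → x c = 0
  loc : ∀ a ∈ V, ∃ c ∈ ncl (up L A), ∃ s ∈ ncl (up L A), V.valuation s = 1 ∧ a = c / s

/-- `c` separates `x` from the other points over the same point of `A`. -/
def Good (A : Subalgebra k F) (x : ncl (up L A) →ₐ[k] k) (c : ncl (up L A)) : Prop :=
  ∀ y : ncl (up L A) →ₐ[k] k, y.comp (toC L A) = x.comp (toC L A) → y c = x c → y = x

end Defs

section WQ

variable {k F L Ω : Type u} [Field k] [Field F] [Field L] [Field Ω] [Algebra k F] [Algebra k L]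
  [Algebra k Ω] [Algebra F L] [Algebra F Ω] [Algebra L Ω] [IsScalarTower k F L]
  [IsScalarTower k F Ω] [IsScalarTower F L Ω]

/-- The ideal of the elements of positive value. -/
def cenI (A : Subalgebra k F) (W : ValuationSubring Ω) (hW : ∀ c ∈ ncl (up Ω A), c ∈ W) :
    Ideal (ncl (up Ω A)) where
  carrier := {c | W.valuation (c : Ω) < 1}
  add_mem' := fun {a b} ha hb => by
    change W.valuation ((a : Ω) + (b : Ω)) < 1
    exact Valuation.map_add_lt _ ha hb
  zero_mem' := by
    change W.valuation (0 : Ω) < 1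
    rw [map_zero]; exact zero_lt_one
  smul_mem' := fun c b hb => by
    change W.valuation ((c : Ω) * (b : Ω)) < 1
    rw [map_mul]
    exact lt_of_le_of_lt (mul_le_of_le_one_left' ((W.valuation_le_one_iff _).2 (hW c c.2))) hb

theorem mem_cenI (A : Subalgebra k F) (W : ValuationSubring Ω) (hW : ∀ c ∈ ncl (up Ω A), c ∈ W)
    (c : ncl (up Ω A)) : c ∈ cenI A W hW ↔ W.valuation (c : Ω) < 1 := Iff.rfl

theorem cenI_prime (A : Subalgebra k F) (W : ValuationSubring Ω)
    (hW : ∀ c ∈ ncl (up Ω A), c ∈ W) : (cenI A W hW).IsPrime := by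
  refine ⟨?_, ?_⟩
  · rw [Ne, Ideal.eq_top_iff_one]
    intro h
    have h1 : W.valuation (1 : Ω) < 1 := h
    rw [map_one] at h1
    exact lt_irrefl _ h1
  · intro a b hab
    by_contra hcon
    push Not at hcon
    have ha : W.valuation (a : Ω) = 1 :=
      le_antisymm ((W.valuation_le_one_iff _).2 (hW a a.2)) (not_lt.1 hcon.1)
    have hb : W.valuation (b : Ω) = 1 :=
      le_antisymm ((W.valuation_le_one_iff _).2 (hW b b.2)) (not_lt.1 hcon.2)
    have h1 : W.valuation ((a : Ω) * (b : Ω)) < 1 := hab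
    rw [map_mul, ha, hb, one_mul] at h1
    exact lt_irrefl _ h1

variable (Ω) in
/-- A valuation ring of `Ω` over `V` and a point over `x` whose kernel contains its centre. -/
theorem exists_WQ [IsAlgClosed k] (A : Subalgebra k F) (x : ncl (up L A) →ₐ[k] k)
    (V : ValuationSubring L) (hV : ∀ c ∈ ncl (up L A), c ∈ V)
    (hx : ∀ c : ncl (up L A), V.valuation (c : L) < 1 → x c = 0) :
    ∃ (W : ValuationSubring Ω) (Q : ncl (up Ω A) →ₐ[k] k),
      W.comap (algebraMap L Ω) = V ∧ (∀ c ∈ ncl (up Ω A), c ∈ W) ∧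
      (∀ c : ncl (up Ω A), W.valuation (c : Ω) < 1 → Q c = 0) ∧
      ∀ c : ncl (up L A), Q (mapC A (IsScalarTower.toAlgHom F L Ω) c) = x c := by
  classical
  obtain ⟨W, hW⟩ := TG.exists_comap_eq (N := Ω) V
  have hWA : ∀ a ∈ up Ω A, a ∈ W := by
    rintro _ ⟨a, ha, rfl⟩
    have h1 : algebraMap F L a ∈ V := hV _ (mem_ncl_up A ha)
    rw [← hW] at h1
    have h2 : algebraMap L Ω (algebraMap F L a) ∈ W := h1
    rw [← IsScalarTower.algebraMap_apply] at h2
    exact h2
  have hWc : ∀ c ∈ ncl (up Ω A), c ∈ W := TG.ncl_mem hWA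
  let σ₀ := IsScalarTower.toAlgHom F L Ω
  let EE := cenI A W hWc
  have hEE : EE.IsPrime := cenI_prime A W hWc
  let E : Ideal (ncl (up L A)) := EE.comap (mapC A σ₀)
  have hE : ∀ c : ncl (up L A), c ∈ E ↔ V.valuation (c : L) < 1 := by
    intro c
    have h1 := TG.comap_lt_one (L := L) W (c : L)
    rw [hW] at h1
    rw [h1]
    exact Iff.rfl
  let φ : (ncl (up L A) ⧸ E) →ₐ[k] (ncl (up Ω A) ⧸ EE) :=
    Ideal.quotientMapₐ EE (mapC A σ₀) le_rfl
  have hφ : Function.Injective φ := Ideal.quotientMap_injective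
  have hφm : ∀ c : ncl (up L A), φ (Ideal.Quotient.mk E c) = Ideal.Quotient.mk EE (mapC A σ₀ c) :=
    fun c => rfl
  let x' : (ncl (up L A) ⧸ E) →ₐ[k] k := Ideal.Quotient.liftₐ E x fun c hc =>
    hx c ((hE c).1 hc)
  have hx' : ∀ c : ncl (up L A), x' (Ideal.Quotient.mk E c) = x c := fun c => rfl
  have hint : ∀ d : ncl (up Ω A) ⧸ EE, IsIntegral φ.range d := by
    intro d
    obtain ⟨d, rfl⟩ := Ideal.Quotient.mk_surjective d
    obtain ⟨p, hp, hpd⟩ := d.2
    have hmem : ∀ b : up Ω A, Ideal.Quotient.mk EE (⟨b, TG.le_ncl _ b.2⟩ : ncl (up Ω A)) ∈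
        φ.range := by
      rintro ⟨_, b, hb, rfl⟩
      refine ⟨Ideal.Quotient.mk E (toC L A ⟨b, hb⟩), ?_⟩
      have h1 : mapC A σ₀ (toC L A ⟨b, hb⟩) = toC Ω A ⟨b, hb⟩ :=
        DFunLike.congr_fun (mapC_comp_toC (Ω := Ω) A σ₀) ⟨b, hb⟩
      change Ideal.Quotient.mk EE (mapC A σ₀ (toC L A ⟨b, hb⟩)) = _
      rw [h1]
      rfl
    let ψ : up Ω A →+* ncl (up Ω A) :=
      (algebraMap (up Ω A) Ω).codRestrict (ncl (up Ω A)).toSubring (fun b => TG.le_ncl _ b.2)
    let χ : up Ω A →+* φ.range := RingHom.codRestrict ((Ideal.Quotient.mk EE).comp ψ)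
      φ.range.toSubring hmem
    refine ⟨p.map χ, hp.map _, ?_⟩
    rw [Polynomial.eval₂_map]
    have h2 : (algebraMap φ.range (ncl (up Ω A) ⧸ EE)).comp χ = (Ideal.Quotient.mk EE).comp ψ :=
      RingHom.ext fun b => rfl
    rw [h2, ← Polynomial.hom_eval₂]
    have h3 : Polynomial.eval₂ ψ d p = 0 := by
      apply Subtype.ext
      have h4 := Polynomial.hom_eval₂ p ψ ((ncl (up Ω A)).val : ncl (up Ω A) →+* Ω) d
      refine h4.trans ?_
      exact hpd
    rw [h3, map_zero]
  obtain ⟨y, hy⟩ := exists_extend φ hφ hint x'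
  refine ⟨W, y.comp (Ideal.Quotient.mkₐ k EE), hW, hWc, fun c hc => ?_, fun c => ?_⟩
  · have h1 : Ideal.Quotient.mk EE c = 0 := Ideal.Quotient.eq_zero_iff_mem.2 hc
    change y (Ideal.Quotient.mk EE c) = 0
    rw [h1, map_zero]
  · have h1 := DFunLike.congr_fun hy (Ideal.Quotient.mk E c)
    rw [hx'] at h1
    exact h1

end WQ

end Pool.Agent.TGBC90
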